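import Pool.Agent.H20.PT.HypNoB

/-!
# The stability conjecture, `r ≥ 2`, for products and skew products with chaotic fibre dynamics

`Sys r`: a `C^r` diffeomorphism `map` (as a function: `fn`) of a closed manifold; `Sys.Stable`,
`Sys.InU3`, `Star`, `IsProd`: `Pool/Agent/H20/PT/Base.lean`; `IsSkew`:
`Pool/Agent/H20/PT/Skew.lean`; `Mfd` (closed manifolds), `Sys.Coord`: `Pool/Agent/H20/PT/SkewDef.lean`;
`Sys.fn`: `Pool/Agent/H20/PT/ConjPow.lean`; `Rich`: `Pool/Agent/H20/PT/EntDef.lean`; `FibreRich`: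
`Pool/Agent/H20/PT/RichDef.lean`; `Sys.mfd`, `Sys.cfn`, `Sys.VertExp` (with `Sys.TBd`, `Sys.tan`,
`Sys.BddOrb`, `Sys.IsTN`, `Sys.vert`, `Sys.CR`): `Pool/Agent/H20/PT/VertDef3.lean`. There: `DiffM d M r` is
`Diff^r(M)` with the topology `strongTop`, `OmegaStable`: `Pool/Agent/TH80/OMS/Defs.lean`; `AxiomA`,
`IsHyp`, `NoCycle`, `ChainRec`, `Omega`: `Q263/HS/Def.lean`, `H728R2/OS/Defs.lean`; `ProdDiff`:
diffeomorphisms `M × N → T` (`R773/TE/Defs.lean`); `IsHyperbolicPer`: hyperbolic periodic points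
(`Y504/CO/Rob.lean`).

The modules of the proof are by helpers 3, 10, 15, 18, 21, 22, 58, 61, 64, 93 and 20
(`Pool/Agent/H*/PT`).
-/

set_option autoImplicit false

open scoped Manifold ContDiff Topology

universe u v w

namespace Pool.Agent.Results.MP_814647_an.ChaoticProducts

open Pool.Agent.H20.PT

/-- Let `2 ≤ r ≤ ∞`, and let `f` be an ARBITRARY `C^r` diffeomorphism of a closed manifold `M`. There is
a number `K` with the following properties.

(1) Let `g` be a `C^r` diffeomorphism of a closed manifold `N` which has a horseshoe of entropy at least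
`log K` (`Rich K g`). If `F = f × g ∈ Diff^r(M × N)` is `Ω`-stable (or only: all periodic points of all
diffeomorphisms near `F` are hyperbolic) then `f` satisfies Axiom A and the no-cycle property, and if
`g` satisfies Axiom A and the no-cycle property, then so does `F`.

(2) Let `F (x, y) = (f x, S x y)` be a `C^r` skew product over `f` whose fibre `N` is a closed manifold
and whose fibre maps `S x` have a common horseshoe of entropy at least `log K` (`FibreRich K S`). If
`F ∈ Diff^r(M × N)` is `Ω`-stable (or star) then `f` satisfies Axiom A and the no-cycle property; and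
`F` satisfies Axiom A and the no-cycle property if and only if all nonzero vectors tangent to the fibres
at the chain recurrent points of `F` have unbounded orbits. -/
theorem result (r : ℕ∞) (hr : 2 ≤ r) (f : Sys.{u} r) : ∃ K : ℕ,
    (∀ (g : Sys.{v} r) (F : Sys.{w} r) (Θ : f.Coord g.mfd F),
      IsProd (Sys.cfn Θ) F.fn f.fn g.fn → Rich K g.fn → F.Stable →
        f.InU3 ∧ (g.InU3 → F.InU3)) ∧
    ∀ (N : Mfd.{v}) (F : Sys.{w} r) (Θ : f.Coord N F) (S : f.pt → N.pt → N.pt),
      IsSkew (Sys.cfn Θ) F.fn f.fn S → FibreRich K S → F.Stable →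
        f.InU3 ∧ (F.InU3 ↔ Sys.VertExp Θ) := by
  obtain ⟨k₁, hk₁⟩ := Sys.rich_prod_law.{u, v, w} hr f
  obtain ⟨k₂, hk₂⟩ := Sys.rich_skew_law'.{u, v, w} hr f
  refine ⟨max k₁ k₂, fun g F Θ hP hg hF => ?_,
    fun N F Θ S hP hS => hk₂ N F Θ S hP (hS.mono (le_max_right _ _))⟩
  obtain ⟨h1, h2⟩ := hk₁ g F Θ hP (hg.mono (le_max_left _ _)) hF
  exact ⟨h1, fun h => h2 h.chainHyp⟩

end Pool.Agent.Results.MP_814647_an.ChaoticProducts
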