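import Pool.Agent.H20.PT.PowLaw

/-!
# The stability conjecture, `r ≥ 2`, for products with many horseshoes

`Sys r`: a `C^r` diffeomorphism `map` of a closed manifold; `Sys.IsProduct`, `Sys.Stable`,
`Sys.InU3`, `FullShift`, `Star`, `IsProd`: `Pool/Agent/H20/PT/Base.lean`; `Sys.IsProdOf`, `Horseshoe`,
`ManyHorseshoes`, `ProductLaw`: `Pool/Agent/H20/PT/PowDef.lean`. There: `DiffM d M r` is `Diff^r(M)`
with the topology `strongTop`, `OmegaStable`: `Pool/Agent/TH80/OMS/Defs.lean`; `AxiomA`, `IsHyp`,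
`NoCycle`, `ChainRec`, `Omega`: `Q263/HS/Def.lean`, `H728R2/OS/Defs.lean`; `ProdDiff`: diffeomorphisms
`M × N → T` (`R773/TE/Defs.lean`); `IsHyperbolicPer`: hyperbolic periodic points (`Y504/CO/Rob.lean`).

The modules of the proof are by helpers 3, 10, 15, 18, 21, 22, 58, 61, 64, 93 and 20
(`Pool/Agent/H*/PT`).
-/

set_option autoImplicit false

open scoped Manifold ContDiff Topology

universe u

namespace Pool.Agent.Results.MP_814647_an.HorseshoeProducts

open Pool.Agent.H20.PT

/-- Let `2 ≤ r ≤ ∞`, and let `𝓕` be a finite set of `C^r` diffeomorphisms of closed manifolds, each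
with at least one periodic point. All products of members of `𝓕` (with arbitrary repetitions) which
contain sufficiently many factors with horseshoes satisfy the stability conjecture: there is `m₀` such
that if `F = X₁ × ⋯ × X_n`, `X_i ∈ 𝓕`, at least `m₀` of the `X_i` have horseshoes, and `F` is `Ω`-stable
in `Diff^r` (or only: all periodic points of all diffeomorphisms near `F` are hyperbolic), then `F` and
all `X_i` satisfy Axiom A and have no cycles. For every further `C^r` diffeomorphism `f` of a closed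
manifold (periodic points are not assumed) there is `m₀` such that the same holds for all the products
`f × X₁ × ⋯ × X_n`. -/
theorem result (r : ℕ∞) (hr : 2 ≤ r) (𝓕 : Set (Sys.{u} r)) (hfin : 𝓕.Finite)
    (hper : ∀ X ∈ 𝓕, ∃ (p : ℕ) (z : X.pt), 1 ≤ p ∧ X.map^[p] z = z) :
    (∃ m₀ : ℕ, ∀ l : List (Sys.{u} r), (∀ X ∈ l, X ∈ 𝓕) → ManyHorseshoes m₀ l →
      ProductLaw l) ∧
    ∀ f : Sys.{u} r, Nonempty f.pt → ∃ m₀ : ℕ, ∀ l : List (Sys.{u} r), (∀ X ∈ l, X ∈ 𝓕) →
      ManyHorseshoes m₀ l → ProductLaw (f :: l) :=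
  ⟨Sys.many_law' hr 𝓕 hfin hper, fun f hf => Sys.many_law hr 𝓕 hfin hper f hf⟩

end Pool.Agent.Results.MP_814647_an.HorseshoeProducts
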