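import Pool.Agent.H20.PT.BlockLaw

/-!
# The stability conjecture, `r ≥ 2`: families of diffeomorphisms inside a stable diffeomorphism

`Sys r`: a `C^r` diffeomorphism `map` of a closed manifold; `Sys.Stable`, `Sys.InU3`, `Star`:
`Pool/Agent/H20/PT/Base.lean`; `Emb`: `Pool/Agent/H20/PT/Emb.lean`; `OpenMfd`:
`Pool/Agent/H20/PT/EmbDef.lean`; `BlockDriver`, `Sys.Hosts`: `Pool/Agent/H20/PT/BlockDef.lean`; `wordD`
(compositions): `Pool/Agent/H20/PT/Drv.lean`. There: `DiffM d M r` is `Diff^r(M)` with the topology
`strongTop`, `OmegaStable`: `Pool/Agent/TH80/OMS/Defs.lean`; `AxiomA`, `IsHyp`, `NoCycle`, `ChainRec`,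
`Omega`: `Q263/HS/Def.lean`, `H728R2/OS/Defs.lean`; `IsHyperbolicPer`: hyperbolic periodic points
(`Y504/CO/Rob.lean`).

The modules of the proof are by helpers 3, 10, 15, 18, 21, 22, 58, 61, 64, 93 and 20
(`Pool/Agent/H*/PT`).
-/

set_option autoImplicit false

open scoped Manifold ContDiff Topology

universe u v w

namespace Pool.Agent.Results.MP_814647_an.LocalSemigroupLaw

open Pool.Agent.H718R2.G Pool.Agent.R773.TE Pool.Agent.H20.PT

/-- Let `2 ≤ r ≤ ∞`, and let `f 0, …, f (s-1)` be ARBITRARY `C^r` diffeomorphisms of a closed manifold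
`M`. There is a number `K` such that the following holds for all closed manifolds `T` and all
`F ∈ Diff^r(T)`. Suppose that `F` contains the family `f`, driven by a horseshoe of entropy at least
`log K` (`Sys.Hosts`): some open part of `T` is diffeomorphic to a product `M × N`, where `N` is a
manifold, and there `F (x, y) = (f i x, S x y)` near compact sets `C i a, D i ⊆ N` (`a < K^Q`), the
fibre maps `S x` having full symbolic dynamics, with all the symbols `a` at the times which are
multiples of `Q` and with all the letters `i` at all times; everywhere else `F` is arbitrary. If `F` is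
`Ω`-stable in `Diff^r(T)` (or only: all periodic points of all diffeomorphisms near `F` are hyperbolic)
then all the diffeomorphisms `f i`, and moreover all their compositions (with arbitrary repetitions),
satisfy Axiom A and the no-cycle property. -/
theorem result (r : ℕ∞) (hr : 2 ≤ r) (d : ℕ) (M : Type u) [MetricSpace M] [CompactSpace M]
    [ChartedSpace (V d) M] [IsManifold (𝓡 d) ∞ M] (s : ℕ) (f : Fin s → DiffM d M r) :
    ∃ K : ℕ, ∀ F : Sys.{w} r, Sys.Hosts.{u, v, w} F f K → F.Stable →
      ∀ l : List (Fin s), l ≠ [] → Sys.InU3 ⟨d, M, wordD f l⟩ :=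
  Sys.hosts_law.{u, v, w} hr f

end Pool.Agent.Results.MP_814647_an.LocalSemigroupLaw
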