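import Pool.Agent.H20.PT.SkewLaw
import Pool.Agent.H10.PT.SS
import Pool.Agent.H20.PT.Clo2
import Pool.Agent.H22.PT.Tors
import Pool.Agent.H58.PT.Vert

/-!
# The stability conjecture, `r ≥ 2`, for toral extensions of arbitrary diffeomorphisms

`Sys r`: a `C^r` diffeomorphism `map` of a closed manifold; `Sys.Stable`, `Sys.InU3`, `Star`:
`Pool/Agent/H20/PT/Base.lean`; `IsTorCover`, `IsTorSkew`: `Pool/Agent/H20/PT/Skew.lean`; `Mfd` (closed
manifolds), `Sys.Coord`, `Sys.IsTorExt`: `Pool/Agent/H20/PT/SkewDef.lean`. There: `DiffM d M r` is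
`Diff^r(M)` with the topology `strongTop`, `OmegaStable`: `Pool/Agent/TH80/OMS/Defs.lean`; `AxiomA`,
`IsHyp`, `NoCycle`, `ChainRec`, `Omega`: `Q263/HS/Def.lean`, `H728R2/OS/Defs.lean`; `ProdDiff`:
diffeomorphisms `M × N → T`, `IsHypAut A Λ`: `A` induces a hyperbolic automorphism of the torus
`W / Λ` (`R773/TE/Defs.lean`); `IsHyperbolicPer`: hyperbolic periodic points (`Y504/CO/Rob.lean`).

The modules of the proof are by helpers 3, 10, 15, 18, 21, 22, 58, 61, 64, 93 and 20
(`Pool/Agent/H*/PT`).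
-/

set_option autoImplicit false

open scoped Manifold ContDiff Topology

universe u v w

namespace Pool.Agent.Results.MP_814647_an.ToralExtensionLaw

open Pool.Agent.R773.TE Pool.Agent.H20.PT

/-- Let `2 ≤ r ≤ ∞`, and let `A` be a hyperbolic automorphism of a torus `𝕋 = W / Λ`. There is `ε > 0` such
that for EVERY `C^r` diffeomorphism `f` of a closed manifold `M` there is `J` such that the stability
conjecture holds for all extensions of `f` of the form
`F (b, y) = (f b, A^j y + φ (b, y))`, `F ∈ Diff^r(M × 𝕋)`, `j ≥ J`, where `φ` is `ε`-Lipschitz along the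
fibres (for instance if `φ` depends only on `b`, and then it is arbitrary): if `F` is `Ω`-stable (or
only: all periodic points of all diffeomorphisms near `F` are hyperbolic) then `F` and `f` satisfy
Axiom A and have no cycles. -/
theorem result (r : ℕ∞) (hr : 2 ≤ r) (W : Type) [NormedAddCommGroup W] [NormedSpace ℝ W]
    [FiniteDimensional ℝ W] [Nontrivial W] (Λ : AddSubgroup W) [DiscreteTopology Λ]
    [IsClosed (Λ : Set W)] (A : W ≃L[ℝ] W) (hA : IsHypAut A Λ) :
    ∃ ε : ℝ, 0 < ε ∧ ∀ f : Sys.{u} r, ∃ J : ℕ, ∀ j : ℕ, J ≤ j → ∀ F : Sys.{w} r,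
      Sys.IsTorExt.{u, v, w} f Λ A j ε F → F.Stable → F.InU3 ∧ f.InU3 := by
  obtain ⟨ε, hε, h⟩ := Sys.toral.{u, v, w} Clo2.main Pool.Agent.H10.PT.SS.main_SS
    Pool.Agent.H22.PTT.tors Pool.Agent.H58.PT.VT.vert hr W Λ A hA
  refine ⟨ε, hε, fun f => ?_⟩
  obtain ⟨J, hJ⟩ := h f
  exact ⟨J, fun j hj F hF hFs => (hJ j hj F hF hFs).symm⟩

end Pool.Agent.Results.MP_814647_an.ToralExtensionLaw
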